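import Pool.Agent.X234.SD.Final7

/-!
# The supercongruence `S_1(p) ≡ 0 (mod p^7)`

`S7 p r` is the sum `∑_{k < p^r} (2k/α_r + 1) ((α_r)_k / k!)^(2 N_r)` with
`α_r = (p^r - 1)/(p^(r+1) - 1)` and `N_r = 1 + p + ... + p^r`, where `rf a k = a (a+1) ... (a+k-1)`.
For every prime `p > 3` the rational number `S7 p 1` is zero or has `p`-adic valuation at least `7`.
For `r = 1` this is the sum `∑_{k < p} (2(p+1)k + 1) ((1/(p+1))_k / k!)^(2(p+1))`.
-/

namespace Pool.Agent.Results.MP_3ec1f3_nt.ModPSeven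

open Finset
open Pool.Agent.X234.SC (CongrMod rf)
open Pool.Agent.X234.SD

theorem result : ∀ p : ℕ, p.Prime → 3 < p → CongrMod p 7 (S7 p 1) 0 ∧
    S7 p 1 = ∑ k ∈ range p, (2 * ((p : ℚ) + 1) * k + 1) *
      (rf (1 / ((p : ℚ) + 1)) k / (k.factorial : ℚ)) ^ (2 * (p + 1)) := by
  intro p hp h3
  refine ⟨congr_seven p hp h3, ?_⟩
  rw [S7_one hp.one_lt]
  apply sum_congr rfl
  intro k _
  congr 2

end Pool.Agent.Results.MP_3ec1f3_nt.ModPSeven
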